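import Mathlib

set_option autoImplicit false

namespace Pool.Agent.Results.MP_96db20_pr.Counterexample

open MeasureTheory ProbabilityTheory Filter Set ENNReal

abbrev G := FreeGroup Bool

instance : MeasurableSpace G := ⊤

noncomputable def mu : PMF G :=
  (PMF.uniformOfFintype (Fin 300)).map fun i => FreeGroup.of (decide (i = 0))

noncomputable def cp (μ : PMF G) : ℕ → PMF G
  | 0 => PMF.pure 1
  | n + 1 => μ.bind fun g => (cp μ n).map (g * ·)

def anc {n : ℕ} (v : Fin n → Fin 3) (k : Fin n) : List (Fin 3) := (List.ofFn v).take (k + 1)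

def pos (ζ : List (Fin 3) → G) {n : ℕ} (v : Fin n → Fin 3) : G :=
  (List.ofFn fun k => ζ (anc v k)).prod

def W {n : ℕ} (w : Fin n → Bool) : G := (List.ofFn fun k => FreeGroup.of (w k)).prod

lemma supp_mu : mu.support = range FreeGroup.of := by
  ext g
  simp only [mu, PMF.support_map, PMF.support_uniformOfFintype, top_eq_univ, image_univ, mem_range]
  constructor
  · rintro ⟨i, rfl⟩; exact ⟨_, rfl⟩
  · rintro ⟨b, rfl⟩
    cases b
    · exact ⟨1, by decide⟩
    · exact ⟨0, rfl⟩

lemma mu_true : mu (FreeGroup.of true) = 300⁻¹ := by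
  rw [mu, PMF.map_apply, tsum_eq_single 0]
  · simp
  · intro i hi
    rw [if_neg]
    intro h
    simpa [hi] using FreeGroup.of_injective h

lemma supp_cp (n : ℕ) : (cp mu n).support = range (W (n := n)) := by
  induction n with
  | zero => ext g; simp [cp, W, eq_comm]
  | succ n ih =>
    ext g
    simp only [cp, PMF.support_bind, PMF.support_map, ih, supp_mu, mem_iUnion, mem_image,
      mem_range, exists_prop]
    constructor
    · rintro ⟨_, ⟨b, rfl⟩, _, ⟨w, rfl⟩, rfl⟩
      exact ⟨Fin.cons b w, by simp [W, List.ofFn_succ]⟩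
    · rintro ⟨w, rfl⟩
      exact ⟨_, ⟨w 0, rfl⟩, _, ⟨fun k => w k.succ, rfl⟩, by simp [W, List.ofFn_succ]⟩

lemma W_mk {n : ℕ} (w : Fin n → Bool) : W w = FreeGroup.mk (List.ofFn fun k => (w k, true)) := by
  induction n with
  | zero => simp [W, FreeGroup.one_eq_mk]
  | succ n ih =>
    have := ih fun k => w k.succ
    unfold W at this ⊢
    rw [List.ofFn_succ, List.prod_cons, this, List.ofFn_succ, FreeGroup.of, FreeGroup.mul_mk]
    rfl

lemma W_inj {n : ℕ} : Function.Injective (W (n := n)) := by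
  intro w w' h
  have red : ∀ u : Fin n → Bool, FreeGroup.IsReduced (List.ofFn fun k => (u k, true)) := by
    intro u
    apply List.Pairwise.isChain
    rw [List.pairwise_ofFn]
    intro _ _ _ _
    rfl
  have := congrArg FreeGroup.toWord h
  rw [W_mk, W_mk, FreeGroup.toWord_mk, FreeGroup.toWord_mk, (red w).reduce_eq, (red w').reduce_eq,
    List.ofFn_inj] at this
  funext k
  exact congrArg Prod.fst (congrFun this k)

lemma anc_inj {n : ℕ} (v : Fin n → Fin 3) : Function.Injective (anc v) := by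
  intro k l h
  have := congrArg List.length h
  simp only [anc, List.length_take, List.length_ofFn] at this
  have := k.2
  have := l.2
  ext; omega

noncomputable def s (b : Bool) : ℝ≥0∞ := if b then 10⁻¹ else 7 / 4

lemma s_sq (b : Bool) : 3 * mu (FreeGroup.of b) ≤ s b * s b := by
  cases b
  · calc 3 * mu (FreeGroup.of false) ≤ 3 * 1 := by gcongr; exact PMF.coe_le_one _ _
      _ ≤ _ := by
        rw [← toReal_le_toReal (by simp) (by simp [s, mul_eq_top, div_eq_top])]
        simp [s]; norm_num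
  · rw [mu_true, ← toReal_le_toReal (by simp [mul_eq_top]) (by simp [s, mul_eq_top])]
    simp [s]; norm_num

theorem result : (∀ n, (cp mu n).support.ncard = 2 ^ n) ∧
    ∀ (Ω : Type) [MeasurableSpace Ω] (P : Measure Ω) [IsProbabilityMeasure P]
      (ζ : List (Fin 3) → Ω → G), (∀ u, Measurable (ζ u)) → iIndepFun ζ P →
      (∀ u g, P (ζ u ⁻¹' {g}) = mu g) → ∀ᵐ ω ∂P, ∀ᶠ n in atTop,
        ((range fun v : Fin n → Fin 3 => pos (fun u => ζ u ω) v).ncard : ℝ) ≤ (19 / 10) ^ n := by
  classical
  refine ⟨fun n => ?_, fun Ω _ P _ ζ hm hi hl => ?_⟩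
  · rw [supp_cp, ncard_range_of_injective W_inj]
    simp
  let V : (n : ℕ) → (Fin n → Bool) → Set Ω := fun n w =>
    ⋃ v : Fin n → Fin 3, ⋂ k, ζ (anc v k) ⁻¹' {FreeGroup.of (w k)}
  have hV : ∀ n w, MeasurableSet (V n w) := fun n w =>
    .iUnion fun v => .iInter fun k => hm _ trivial
  have pV : ∀ n w, P (V n w) ≤ ∏ k, s (w k) := by
    intro n w
    by_cases h1 : 1 ≤ ∏ k, s (w k)
    · exact prob_le_one.trans h1
    have h2 : P (V n w) ≤ (∏ k, s (w k)) * ∏ k, s (w k) := by
      calc P (V n w) ≤ ∑ v : Fin n → Fin 3, P (⋂ k, ζ (anc v k) ⁻¹' {FreeGroup.of (w k)}) :=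
            measure_iUnion_fintype_le _ _
        _ = ∑ v : Fin n → Fin 3, ∏ k, mu (FreeGroup.of (w k)) := by
            refine Finset.sum_congr rfl fun v _ => ?_
            rw [(hi.precomp (anc_inj v)).meas_iInter fun k => ⟨_, trivial, rfl⟩]
            simp only [hl]
        _ = ∏ k, 3 * mu (FreeGroup.of (w k)) := by
            simp [Finset.prod_mul_distrib]
        _ ≤ ∏ k, s (w k) * s (w k) := Finset.prod_le_prod' fun k _ => s_sq _
        _ = _ := Finset.prod_mul_distrib
    exact h2.trans (mul_le_of_le_one_left' (not_le.mp h1).le)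
  let Y : ℕ → Ω → ℝ≥0∞ := fun n ω => ∑ w : Fin n → Bool, (V n w).indicator 1 ω
  have hY : ∀ n, Measurable (Y n) := fun n =>
    Finset.measurable_sum _ fun w _ => measurable_one.indicator (hV n w)
  have iY : ∀ n, ∫⁻ ω, Y n ω ∂P ≤ (37 / 20) ^ n := by
    intro n
    rw [lintegral_finsetSum _ fun w _ => measurable_one.indicator (hV n w)]
    simp only [lintegral_indicator_one (hV n _)]
    refine (Finset.sum_le_sum fun w _ => pV n w).trans (le_of_eq ?_)
    have := Finset.prod_univ_sum (fun _ : Fin n => (Finset.univ : Finset Bool)) fun _ b => s b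
    rw [Fintype.piFinset_univ] at this
    rw [← this]
    have e : ∑ b, s b = 37 / 20 := by
      rw [← toReal_eq_toReal_iff' (by simp [s, div_eq_top]) (by simp [div_eq_top])]
      simp only [Fintype.sum_bool, s, if_true, Bool.false_eq_true, if_false]
      rw [toReal_add (by simp) (by simp [div_eq_top])]
      simp; norm_num
    rw [e]; simp
  have pB : ∀ n, P {ω | (19 / 10 : ℝ≥0∞) ^ n ≤ Y n ω} ≤ (37 / 38) ^ n := by
    intro n
    have h1 := (mul_meas_ge_le_lintegral (μ := P) (hY n) ((19 / 10) ^ n)).trans (iY n)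
    have e : (37 / 20 : ℝ≥0∞) = 19 / 10 * (37 / 38) := by
      rw [← toReal_eq_toReal_iff' (by simp [div_eq_top]) (by simp [div_eq_top, mul_eq_top])]
      simp; norm_num
    rw [e, mul_pow] at h1
    exact (ENNReal.mul_le_mul_iff_right (pow_ne_zero _ (by simp))
      (pow_ne_top (by simp [div_eq_top]))).mp h1
  have hs : ∑' n, P {ω | (19 / 10 : ℝ≥0∞) ^ n ≤ Y n ω} ≠ ∞ := by
    refine ne_top_of_le_ne_top ?_ (ENNReal.tsum_le_tsum pB)
    rw [ENNReal.tsum_geometric, inv_ne_top, ne_eq, tsub_eq_zero_iff_le, not_le]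
    exact ENNReal.div_lt_of_lt_mul (by norm_num)
  have ha : ∀ᵐ ω ∂P, ∀ u, ∀ g, g ∉ mu.support → ζ u ω ≠ g := by
    rw [ae_all_iff]; intro u
    rw [ae_all_iff]; intro g
    by_cases hg : g ∈ mu.support
    · simp [hg]
    · have : P (ζ u ⁻¹' {g}) = 0 := by rw [hl]; simpa using hg
      filter_upwards [measure_eq_zero_iff_ae_notMem.mp this] with ω h _ using h
  filter_upwards [ha, ae_eventually_notMem hs] with ω h1 h2
  filter_upwards [h2] with n hn
  have hb : ∀ u, ∃ b, FreeGroup.of b = ζ u ω := fun u => by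
    by_contra h
    exact h1 u _ (by rw [supp_mu]; exact h) rfl
  choose b hb using hb
  let F : Finset (Fin n → Bool) := Finset.univ.filter fun w => ω ∈ V n w
  have h3 : (range fun v : Fin n → Fin 3 => pos (fun u => ζ u ω) v) ⊆ W '' (F : Set (Fin n → Bool)) := by
    rintro _ ⟨v, rfl⟩
    refine ⟨fun k => b (anc v k), ?_, by simp [W, pos, hb]⟩
    simp only [F, V, Finset.coe_filter, Finset.mem_univ, true_and, mem_ofPred_eq, mem_iUnion,
      mem_iInter, mem_preimage, mem_singleton_iff]
    exact ⟨v, fun k => (hb _).symm⟩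
  have h4 := (ncard_le_ncard h3 (F.finite_toSet.image _)).trans (ncard_image_le F.finite_toSet)
  rw [ncard_coe_finset] at h4
  have h5 : Y n ω = F.card := by
    simp only [Y, F, indicator, Pi.one_apply, Finset.sum_boole]
  have h6 : (F.card : ℝ≥0∞) ≤ (19 / 10) ^ n := by
    rw [← h5]; exact (not_le.mp hn).le
  have h7 := toReal_mono (pow_ne_top (by simp [div_eq_top])) h6
  simp only [toReal_natCast, toReal_pow, toReal_div, toReal_ofNat] at h7
  exact le_trans (by exact_mod_cast h4) h7

end Pool.Agent.Results.MP_96db20_pr.Counterexample
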